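import Pool.Graph.R_pool_sql_team_seeded_f72693b1.W492.PC.Sym
import Pool.Graph.R_pool_sql_team_seeded_ab47071d.TH116.EF.Defs

/-!
# Motives with a realisation, over all the fields of one characteristic
-/

open CategoryTheory Limits MonoidalCategory Triangulated Pretriangulated

universe u v₁ u₁ v₂ u₂ w

namespace Pool.Agent.H939.PG

open Pool.Agent.W492.PC (dpow)

/-- A rigid tensor triangulated category `T` (geometric motives over a field, with coefficients in
the field `F`) with a tensor triangulated realisation functor `R : T ⥤ D`. -/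
structure Motives (F : Type w) [Field F] where
  /-- the category of motives -/
  T : Type u₁
  [catT : Category.{v₁} T]
  [preT : Preadditive T]
  [zeroT : HasZeroObject T]
  [shiftT : HasShift T ℤ]
  [addT : ∀ n : ℤ, (shiftFunctor T n).Additive]
  [pretriT : Pretriangulated T]
  [monT : MonoidalCategory T]
  [monPreT : MonoidalPreadditive T]
  [symT : SymmetricCategory T]
  [rigidT : ∀ X : T, HasRightDual X]
  [linT : Linear F T]
  /-- the target of the realisation -/
  D : Type u₂
  [catD : Category.{v₂} D]
  [preD : Preadditive D]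
  [zeroD : HasZeroObject D]
  [shiftD : HasShift D ℤ]
  [addD : ∀ n : ℤ, (shiftFunctor D n).Additive]
  [pretriD : Pretriangulated D]
  [monD : MonoidalCategory D]
  [monPreD : MonoidalPreadditive D]
  [linD : Linear F D]
  /-- the realisation -/
  R : T ⥤ D
  [shiftR : R.CommShift ℤ]
  [triR : R.IsTriangulated]
  [monR : R.Monoidal]
  [linR : R.Linear F]

attribute [instance] Motives.catT Motives.preT Motives.zeroT Motives.shiftT Motives.addT
  Motives.pretriT Motives.monT Motives.monPreT Motives.symT Motives.rigidT Motives.catD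
  Motives.preD Motives.zeroD Motives.shiftD Motives.addD Motives.pretriD Motives.monD
  Motives.monPreD Motives.shiftR Motives.triR Motives.monR Motives.linT Motives.linD Motives.linR

namespace Motives

variable {F : Type w} [Field F] (M : Motives.{v₁, u₁, v₂, u₂} F)

/-- The realisation is conservative: a morphism `f` is an isomorphism if `R(f)` is. -/
def Conservative : Prop :=
  ∀ (A B : M.T) (f : A ⟶ B), IsIso (M.R.map f) → IsIso f

/-- Every endomorphism with realisation zero is nilpotent. -/
def Nilpotence : Prop :=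
  ∀ (A : M.T) (φ : End A), M.R.map (φ : A ⟶ A) = 0 → IsNilpotent φ

/-- Every morphism `f : 1 ⟶ A` with realisation zero is tensor nilpotent: `f ⊗ ⋯ ⊗ f = 0` for some
number of factors. -/
def TensorNilpotence : Prop :=
  ∀ (A : M.T) (f : 𝟙_ M.T ⟶ A), M.R.map f = 0 → ∃ n : ℕ, dpow f n = 0

/-- Let `Φ` be a faithful additive functor from an additive category to the category of motives,
for instance the extension of the coefficients of motives from `ℚ` to `F`. Every endomorphism `φ`
such that the realisation of `Φ(φ)` is zero is nilpotent. -/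
def NilpotenceBelow : Prop :=
  ∀ (T₀ : Type u₁) [Category.{v₁} T₀] [Preadditive T₀] (Φ : T₀ ⥤ M.T) [Φ.Additive]
    [Φ.Faithful] (A : T₀) (φ : End A), M.R.map (Φ.map (φ : A ⟶ A)) = 0 → IsNilpotent φ

/-- Every object in `Eff` (effective motives) with realisation zero is of the form `N ⊗ L`, with
`N` in `Eff`. -/
def PhantomsDivisible (Eff : M.T → Prop) (L : M.T) : Prop :=
  ∀ A : M.T, Eff A → IsZero (M.R.obj A) → Pool.Agent.TH116.EF.IsDivisible Eff L A

/-- The dimensions over `F` of the algebras of endomorphisms are smaller than the cardinality of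
`F`. -/
def SmallEnds : Prop :=
  ∀ A : M.T, Cardinal.lift.{w} (Module.rank F (End A)) < Cardinal.lift.{v₁} (Cardinal.mk F)

end Motives

section
variable {T : Type u₁} [Category.{v₁} T] [MonoidalCategory T]
  {T' : Type u₂} [Category.{v₂} T'] [MonoidalCategory T'] (P : T ⥤ T') [P.Monoidal]

/-- The morphism `f : A ⟶ B` of `T'` comes from the morphism `y : 1 ⟶ N` of `T`: it is the
composition of `y ⊗ A : A ⟶ P N ⊗ A` with a morphism `P N ⊗ A ⟶ B`. -/
def ComesFrom {A B : T'} (f : A ⟶ B) {N : T} (y : 𝟙_ T ⟶ N) : Prop :=
  ∃ c : P.obj N ⊗ A ⟶ B,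
    f = (λ_ A).inv ≫ ((Functor.LaxMonoidal.ε P ≫ P.map y) ▷ A) ≫ c

end

section
variable {F : Type w} [Field F] (M M' : Motives.{v₁, u₁, v₂, u₂} F) (P : M.T ⥤ M'.T) [P.Monoidal]

/-- Push-forward of the endomorphisms of an object `A` with realisation zero: the identity of `A`
comes from a morphism `1 ⟶ N` with `R(N) = 0`. -/
def PushAcyclic : Prop :=
  ∀ A : M'.T, IsZero (M'.R.obj A) →
    ∃ (N : M.T) (y : 𝟙_ M.T ⟶ N), IsZero (M.R.obj N) ∧ ComesFrom P (𝟙 A) y

/-- Push-forward of an endomorphism `φ` with realisation zero: there are an object `N`, the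
push-forward of the endomorphisms of `A`, with the unit `η : 1 ⟶ N` and the endomorphism `ψ` given
by the composition with `φ ^ r`, such that `φ ^ (r n)` comes from `η ≫ ψ ^ n`; and `R(ψ) = 0` for a
suitable `r`. -/
def PushNilpotent : Prop :=
  ∀ (A : M'.T) (φ : End A), M'.R.map (φ : A ⟶ A) = 0 →
    ∃ (r : ℕ) (N : M.T) (η : 𝟙_ M.T ⟶ N) (ψ : End N), M.R.map (ψ : N ⟶ N) = 0 ∧
      ∀ n : ℕ, ComesFrom P ((φ ^ (r * n) : End A) : A ⟶ A) (η ≫ ((ψ ^ n : End N) : N ⟶ N))

/-- Push-forward of a morphism `f : 1 ⟶ A` with realisation zero: there are an object `N`, the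
push-forward of the `r`-th tensor power of `A`, and a morphism `y : 1 ⟶ N` such that the tensor
powers of `f ⊗ ⋯ ⊗ f` (`r` factors) come from those of `y`; and `R(y) = 0` for a suitable `r`. -/
def PushTensor : Prop :=
  ∀ (A : M'.T) (f : 𝟙_ M'.T ⟶ A), M'.R.map f = 0 →
    ∃ (r : ℕ) (N : M.T) (y : 𝟙_ M.T ⟶ N), M.R.map y = 0 ∧
      ∀ n : ℕ, ComesFrom P (dpow f (r * n)) (dpow y n)

/-- Base change is compatible with the realisations, as far as zero objects and zero morphisms are
concerned. -/
def PreservesKernel : Prop :=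
  (∀ A : M.T, IsZero (M.R.obj A) → IsZero (M'.R.obj (P.obj A))) ∧
  ∀ (A B : M.T) (f : A ⟶ B), M.R.map f = 0 → M'.R.map (P.map f) = 0

end

/-- The base change functor `P` for an extension of fields `K/k`, where `M` and `M'` are the
motives over `k` and over `K`. -/
structure BaseChange {F : Type w} [Field F] (M M' : Motives.{v₁, u₁, v₂, u₂} F) where
  /-- base change -/
  P : M.T ⥤ M'.T
  [monP : P.Monoidal]
  [addP : P.Additive]
  [faithfulP : P.Faithful]
  kernel : PreservesKernel M M' P
  acyclic : PushAcyclic M M' P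
  nilpotent : PushNilpotent M M' P
  tensor : PushTensor M M' P

attribute [instance] BaseChange.monP BaseChange.addP BaseChange.faithfulP

/-- Motives with coefficients in `F`, with realisations, over all the fields of characteristic `p`. -/
structure FieldMotives (F : Type w) [Field F] (p : ℕ) where
  /-- motives over `k` -/
  obj : ∀ (k : Type u) [Field k] [CharP k p], Motives.{v₁, u₁, v₂, u₂} F
  /-- base change along an embedding of fields -/
  map : ∀ {k K : Type u} [Field k] [CharP k p] [Field K] [CharP K p] (_ : k →+* K),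
    BaseChange (obj k) (obj K)

end Pool.Agent.H939.PG
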